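import Pool.Agent.V5helper19.QC.Stm

/-!
# Project QC, job DER (helper36): derivatives
-/

set_option autoImplicit false
open Finset

namespace V5helper36.QC

open V5helper19.QC

theorem exp_ne_one {m : ℕ} (hm : 1 ≤ m) {z : ℂ} (hz : 0 < z.re) :
    Complex.exp ((m : ℂ) * z) ≠ 1 := by
  intro h
  have h1 : ‖Complex.exp ((m : ℂ) * z)‖ = 1 := by rw [h]; simp
  rw [Complex.norm_exp] at h1
  have h2 : ((m : ℂ) * z).re = (m : ℝ) * z.re := by simp
  rw [h2] at h1
  have h3 : 0 < (m : ℝ) * z.re := by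
    have : (0 : ℝ) < m := by exact_mod_cast hm
    positivity
  have h4 := Real.one_lt_exp_iff.2 h3
  linarith

theorem hasDerivAt_bb {x : ℂ} (hx : Complex.exp x ≠ 1) : HasDerivAt bb (-(e1 x)) x := by
  have h0 : Complex.exp x - 1 ≠ 0 := sub_ne_zero.2 hx
  have h := ((Complex.hasDerivAt_exp x).sub_const 1).inv h0
  have h2 : HasDerivAt bb (-Complex.exp x / (Complex.exp x - 1) ^ 2) x := by
    refine h.congr_of_eventuallyEq ?_
    filter_upwards with y
    simp [bb]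
  refine h2.congr_deriv ?_
  simp only [e1]
  ring

theorem hasDerivAt_e1 {x : ℂ} (hx : Complex.exp x ≠ 1) : HasDerivAt e1 (-(e2 x)) x := by
  have h0 : Complex.exp x - 1 ≠ 0 := sub_ne_zero.2 hx
  have h1 : HasDerivAt (fun y => (Complex.exp y - 1) ^ 2)
      (2 * (Complex.exp x - 1) * Complex.exp x) x := by
    have := ((Complex.hasDerivAt_exp x).sub_const 1).pow 2
    refine this.congr_deriv ?_
    push_cast
    ring
  have h := (Complex.hasDerivAt_exp x).div h1 (pow_ne_zero 2 h0)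
  have h2 : HasDerivAt e1 ((Complex.exp x * (Complex.exp x - 1) ^ 2 -
      Complex.exp x * (2 * (Complex.exp x - 1) * Complex.exp x)) /
        ((Complex.exp x - 1) ^ 2) ^ 2) x := h
  refine h2.congr_deriv ?_
  simp only [e2]
  field_simp
  ring

theorem hasDerivAt_bb_mul {m : ℕ} (hm : 1 ≤ m) {z : ℂ} (hz : 0 < z.re) :
    HasDerivAt (fun y => (m : ℂ) * bb ((m : ℂ) * y)) (-((m : ℂ) ^ 2 * e1 ((m : ℂ) * z))) z := by
  have h1 : HasDerivAt (fun y : ℂ => (m : ℂ) * y) (m : ℂ) z := by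
    simpa using (hasDerivAt_id z).const_mul (m : ℂ)
  have h2 := (hasDerivAt_bb (exp_ne_one hm hz)).comp z h1
  have h3 := h2.const_mul (m : ℂ)
  refine h3.congr_deriv ?_
  ring

theorem hasDerivAt_e1_mul {m : ℕ} (hm : 1 ≤ m) {z : ℂ} (hz : 0 < z.re) :
    HasDerivAt (fun y => (m : ℂ) ^ 2 * e1 ((m : ℂ) * y)) (-((m : ℂ) ^ 3 * e2 ((m : ℂ) * z))) z := by
  have h1 : HasDerivAt (fun y : ℂ => (m : ℂ) * y) (m : ℂ) z := by
    simpa using (hasDerivAt_id z).const_mul (m : ℂ)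
  have h2 := (hasDerivAt_e1 (exp_ne_one hm hz)).comp z h1
  have h3 := h2.const_mul ((m : ℂ) ^ 2)
  refine h3.congr_deriv ?_
  ring

theorem fac_ne {m : ℕ} (hm : 1 ≤ m) {z : ℂ} (hz : 0 < z.re) :
    1 - Complex.exp (-z) ^ m ≠ 0 := by
  intro h
  apply exp_ne_one hm hz
  have h1 : Complex.exp (-z) ^ m = 1 := (sub_eq_zero.1 h).symm
  have h2 : Complex.exp ((m : ℂ) * z) = (Complex.exp (-z) ^ m)⁻¹ := by
    rw [← Complex.exp_nat_mul, ← Complex.exp_neg]
    congr 1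
    ring
  rw [h2, h1, inv_one]

theorem hasDerivAt_fac {m : ℕ} (hm : 1 ≤ m) {z : ℂ} (hz : 0 < z.re) :
    HasDerivAt (fun y => 1 - Complex.exp (-y) ^ m)
      ((1 - Complex.exp (-z) ^ m) * ((m : ℂ) * bb ((m : ℂ) * z))) z := by
  have h0 : HasDerivAt (fun y : ℂ => (m : ℂ) * y) (m : ℂ) z := by
    simpa using (hasDerivAt_id z).const_mul (m : ℂ)
  have h1 : HasDerivAt (fun y : ℂ => -((m : ℂ) * y)) (-(m : ℂ)) z := h0.neg
  have h2 := (h1.cexp).const_sub 1
  have e0 : ∀ y : ℂ, Complex.exp (-y) ^ m = Complex.exp (-((m : ℂ) * y)) := by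
    intro y
    rw [← Complex.exp_nat_mul]
    congr 1
    ring
  have e3 : (fun y => 1 - Complex.exp (-y) ^ m) = fun y : ℂ => 1 - Complex.exp (-((m : ℂ) * y)) := by
    funext y
    rw [e0]
  rw [e3]
  refine h2.congr_deriv ?_
  have hne : Complex.exp ((m : ℂ) * z) - 1 ≠ 0 := sub_ne_zero.2 (exp_ne_one hm hz)
  have hne2 : Complex.exp ((m : ℂ) * z) ≠ 0 := Complex.exp_ne_zero _
  rw [e0, Complex.exp_neg]
  simp only [bb]
  field_simp

theorem hasDerivAt_quo {m k : ℕ} (hm : 1 ≤ m) (hk : 1 ≤ k) {z : ℂ} (hz : 0 < z.re) :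
    HasDerivAt (fun y => (1 - Complex.exp (-y) ^ m) / (1 - Complex.exp (-y) ^ k))
      ((1 - Complex.exp (-z) ^ m) / (1 - Complex.exp (-z) ^ k) *
        ((m : ℂ) * bb ((m : ℂ) * z) - (k : ℂ) * bb ((k : ℂ) * z))) z := by
  have h := (hasDerivAt_fac hm hz).div (hasDerivAt_fac hk hz) (fac_ne hk hz)
  have hne := fac_ne hk hz
  refine h.congr_deriv ?_
  field_simp

theorem hasDerivAt_prod {ι : Type} [DecidableEq ι] (s : Finset ι) (f : ι → ℂ → ℂ) (l : ι → ℂ)
    (z : ℂ) (h : ∀ i ∈ s, HasDerivAt (f i) (f i z * l i) z) :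
    HasDerivAt (fun y => ∏ i ∈ s, f i y) ((∏ i ∈ s, f i z) * ∑ i ∈ s, l i) z := by
  induction s using Finset.induction_on with
  | empty => simpa using hasDerivAt_const z (1 : ℂ)
  | insert a s ha ih =>
    have h1 := ih (fun i hi => h i (Finset.mem_insert_of_mem hi))
    have h2 := (h a (Finset.mem_insert_self a s)).mul h1
    have e : (fun y => ∏ i ∈ insert a s, f i y) = fun y => f a y * ∏ i ∈ s, f i y := by
      funext y
      rw [Finset.prod_insert ha]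
    rw [e, Finset.prod_insert ha, Finset.sum_insert ha]
    refine h2.congr_deriv ?_
    ring

theorem t_DER : S_DER := by
  intro n z hz
  refine ⟨?_, ?_, ?_, ?_⟩
  · simp only [GZ, GC]
    rw [Finset.prod_ne_zero_iff]
    intro j hj
    rw [Finset.mem_Icc] at hj
    exact div_ne_zero (fac_ne (by omega) hz) (fac_ne (by omega) hz)
  · have h := hasDerivAt_prod (Icc 2 n)
      (fun j y => (1 - Complex.exp (-y) ^ (n + j)) / (1 - Complex.exp (-y) ^ j))
      (fun j => ((n + j : ℕ) : ℂ) * bb (((n + j : ℕ) : ℂ) * z) - (j : ℂ) * bb ((j : ℂ) * z)) z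
      (fun j hj => by
        rw [Finset.mem_Icc] at hj
        exact hasDerivAt_quo (by omega) (by omega) hz)
    exact h
  · have h : HasDerivAt (fun y => ∑ j ∈ Icc 2 n, (((n + j : ℕ) : ℂ) * bb (((n + j : ℕ) : ℂ) * y) -
        (j : ℂ) * bb ((j : ℂ) * y))) (∑ j ∈ Icc 2 n,
          (-(((n + j : ℕ) : ℂ) ^ 2 * e1 (((n + j : ℕ) : ℂ) * z)) - -((j : ℂ) ^ 2 *
            e1 ((j : ℂ) * z)))) z := by
      apply HasDerivAt.fun_sum
      intro j hj
      rw [Finset.mem_Icc] at hj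
      exact (hasDerivAt_bb_mul (by omega) hz).sub (hasDerivAt_bb_mul (by omega) hz)
    have e : LD2 n z = ∑ j ∈ Icc 2 n,
          (-(((n + j : ℕ) : ℂ) ^ 2 * e1 (((n + j : ℕ) : ℂ) * z)) - -((j : ℂ) ^ 2 *
            e1 ((j : ℂ) * z))) := by
      simp only [LD2]
      apply Finset.sum_congr rfl
      intro j _
      ring
    rw [e]
    exact h
  · have h : HasDerivAt (fun y => ∑ j ∈ Icc 2 n, ((j : ℂ) ^ 2 * e1 ((j : ℂ) * y) -
        ((n + j : ℕ) : ℂ) ^ 2 * e1 (((n + j : ℕ) : ℂ) * y))) (∑ j ∈ Icc 2 n,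
          (-((j : ℂ) ^ 3 * e2 ((j : ℂ) * z)) - -(((n + j : ℕ) : ℂ) ^ 3 *
            e2 (((n + j : ℕ) : ℂ) * z)))) z := by
      apply HasDerivAt.fun_sum
      intro j hj
      rw [Finset.mem_Icc] at hj
      exact (hasDerivAt_e1_mul (by omega) hz).sub (hasDerivAt_e1_mul (by omega) hz)
    have e : LD3 n z = ∑ j ∈ Icc 2 n,
          (-((j : ℂ) ^ 3 * e2 ((j : ℂ) * z)) - -(((n + j : ℕ) : ℂ) ^ 3 *
            e2 (((n + j : ℕ) : ℂ) * z))) := by
      simp only [LD3]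
      apply Finset.sum_congr rfl
      intro j _
      ring
    rw [e]
    exact h

end V5helper36.QC
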